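import Pool.Agent.Helper14.FO.Defs

/-! MP_190084_co: module BH (double exponential families from odd cycles). -/

set_option autoImplicit false

namespace Pool.Agent.Helper35.FO

open Pool.Agent.Helper14.FO

/-- the numbers for one level -/
def bh_ok (n : ℕ) (I : Type) (a : (I → Bool) → I → ℕ) : Prop :=
  (∀ e i, 1 ≤ a e i ∧ a e i ≤ n + 1) ∧ (∀ e, ∃ i, a e i = 1) ∧
  ∀ e e', e ≠ e' → ∃ i, (e i = e' i ∧ (a e i = a e' i + 1 ∨ a e' i = a e i + 1)) ∨
    (e i ≠ e' i ∧ a e i = n + 1 ∧ a e' i = n + 1)

/-- equality bits of pairs -/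
def bh_d {I : Type} (e : Bool × I → Bool) (i : I) : Bool := e (false, i) == e (true, i)

/-- the numbers of the next level -/
def bh_a {I : Type} (n : ℕ) (a : (I → Bool) → I → ℕ) (e : Bool × I → Bool) (p : Bool × I) : ℕ :=
  if p.1 = bh_d e p.2 then a (bh_d e) p.2 else n + 2

theorem bh_flip {I : Type} (e e' : Bool × I → Bool) (i : I) (h : bh_d e i = bh_d e' i) (c c' : Bool)
    (hc : e (c, i) ≠ e' (c, i)) : e (c', i) ≠ e' (c', i) := by
  unfold bh_d at h
  revert h hc
  cases c <;> cases c' <;> cases e (false, i) <;> cases e (true, i) <;> cases e' (false, i) <;>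
    cases e' (true, i) <;> simp

theorem bh_one {I : Type} (e e' : Bool × I → Bool) (i : I) (h : bh_d e i ≠ bh_d e' i) :
    ∃ c, e (c, i) = e' (c, i) := by
  unfold bh_d at h
  by_contra hc
  push Not at hc
  have h1 := hc false
  have h2 := hc true
  revert h h1 h2
  cases e (false, i) <;> cases e (true, i) <;> cases e' (false, i) <;>
    cases e' (true, i) <;> simp

theorem bh_step (n : ℕ) (I : Type) (a : (I → Bool) → I → ℕ) (h : bh_ok n I a) :
    bh_ok (n + 1) (Bool × I) (bh_a n a) := by
  obtain ⟨h1, h2, h3⟩ := h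
  have hbig : ∀ (e : Bool × I → Bool) (i : I), bh_a n a e (!(bh_d e i), i) = n + 2 := by
    intro e i
    unfold bh_a
    rw [if_neg]
    cases bh_d e i <;> simp
  have hsm : ∀ (e : Bool × I → Bool) (i : I), bh_a n a e (bh_d e i, i) = a (bh_d e) i := by
    intro e i
    unfold bh_a
    rw [if_pos rfl]
  refine ⟨?_, ?_, ?_⟩
  · intro e p
    unfold bh_a
    split_ifs
    · have := h1 (bh_d e) p.2
      omega
    · omega
  · intro e
    obtain ⟨i, hi⟩ := h2 (bh_d e)
    exact ⟨(bh_d e i, i), by rw [hsm, hi]⟩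
  · intro e e' hne
    have hsame : ∀ i c, bh_d e i = bh_d e' i → e (c, i) ≠ e' (c, i) → ∃ p : Bool × I,
        (e p = e' p ∧ (bh_a n a e p = bh_a n a e' p + 1 ∨ bh_a n a e' p = bh_a n a e p + 1)) ∨
        (e p ≠ e' p ∧ bh_a n a e p = n + 1 + 1 ∧ bh_a n a e' p = n + 1 + 1) := by
      intro i c hd hc
      refine ⟨(!(bh_d e i), i), Or.inr ⟨bh_flip e e' i hd c _ hc, hbig e i, ?_⟩⟩
      rw [hd]
      exact hbig e' i
    by_cases hd : bh_d e = bh_d e'
    · have : ∃ p, e p ≠ e' p := by
        by_contra hc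
        push Not at hc
        exact hne (funext hc)
      obtain ⟨⟨c, i⟩, hc⟩ := this
      exact hsame i c (congrFun hd i) hc
    · obtain ⟨i, hi⟩ := h3 _ _ hd
      rcases hi with ⟨hdi, hab⟩ | ⟨hdi, ha, hb⟩
      · by_cases hc : e (bh_d e i, i) = e' (bh_d e i, i)
        · refine ⟨(bh_d e i, i), Or.inl ⟨hc, ?_⟩⟩
          have e1 := hsm e i
          have e2 := hsm e' i
          rw [← hdi] at e2
          rw [e1, e2]
          exact hab
        · exact hsame i _ hdi hc
      · obtain ⟨c, hc⟩ := bh_one e e' i hdi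
        refine ⟨(c, i), Or.inl ⟨hc, ?_⟩⟩
        by_cases hcd : c = bh_d e i
        · have hcd' : c = !(bh_d e' i) := by
            rw [hcd]
            revert hdi
            cases bh_d e i <;> cases bh_d e' i <;> simp
          have e1 : bh_a n a e (c, i) = n + 1 := by rw [hcd, hsm, ha]
          have e2 : bh_a n a e' (c, i) = n + 2 := by rw [hcd', hbig]
          right
          rw [e1, e2]
        · have hcd1 : c = !(bh_d e i) := by
            revert hcd
            cases bh_d e i <;> cases c <;> simp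
          have hcd' : c = bh_d e' i := by
            rw [hcd1]
            revert hdi
            cases bh_d e i <;> cases bh_d e' i <;> simp
          have e1 : bh_a n a e' (c, i) = n + 1 := by rw [hcd', hsm, hb]
          have e2 : bh_a n a e (c, i) = n + 2 := by rw [hcd1, hbig]
          left
          rw [e1, e2]

theorem bh_ex (n : ℕ) : ∃ (I : Type) (_ : Fintype I), Fintype.card I = 2 ^ n ∧
    ∃ a : (I → Bool) → I → ℕ, bh_ok n I a := by
  induction n with
  | zero =>
    refine ⟨Unit, inferInstance, by simp, fun _ _ => 1, ?_, ?_, ?_⟩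
    · intro e i
      simp
    · intro e
      exact ⟨(), rfl⟩
    · intro e e' hne
      refine ⟨(), Or.inr ⟨fun h => hne ?_, rfl, rfl⟩⟩
      funext i
      cases i
      exact h
  | succ n ih =>
    obtain ⟨I, hI, hc, a, ha⟩ := ih
    refine ⟨Bool × I, inferInstance, ?_, bh_a n a, bh_step n I a ha⟩
    rw [Fintype.card_prod, Fintype.card_bool, hc, pow_succ]
    ring

/-- the vectors -/
def bh_v {I : Type} (n : ℕ) (a : (I → Bool) → I → ℕ) : Option (I → Bool) → I → ZMod (2 * n + 3)
  | none, _ => 0
  | some e, i => if e i = true then (a e i : ZMod (2 * n + 3)) else -(a e i : ZMod (2 * n + 3))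

theorem bh_zero {I : Type} (n : ℕ) (a : (I → Bool) → I → ℕ) (h : bh_ok n I a) (e : I → Bool) :
    ∃ i, bh_v n a (some e) i - bh_v n a none i = 1 ∨ bh_v n a none i - bh_v n a (some e) i = 1 := by
  obtain ⟨i, hi⟩ := h.2.1 e
  refine ⟨i, ?_⟩
  by_cases he : e i = true
  · left
    simp [bh_v, he, hi]
  · right
    simp [bh_v, he, hi]

theorem bh_neg (n : ℕ) : ((n + 1 : ℕ) : ZMod (2 * n + 3)) + ((n + 1 : ℕ) : ZMod (2 * n + 3)) + 1 = 0 := by
  have h := ZMod.natCast_self (2 * n + 3)
  rw [← h]
  push_cast
  ring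

theorem bh_two {I : Type} (n : ℕ) (a : (I → Bool) → I → ℕ) (h : bh_ok n I a) (e e' : I → Bool)
    (hne : e ≠ e') : ∃ i, bh_v n a (some e) i - bh_v n a (some e') i = 1 ∨
      bh_v n a (some e') i - bh_v n a (some e) i = 1 := by
  obtain ⟨i, hi⟩ := h.2.2 e e' hne
  refine ⟨i, ?_⟩
  have hn := bh_neg n
  rcases hi with ⟨he, hab | hab⟩ | ⟨he, ha, hb⟩
  · simp only [bh_v, ← he, hab]
    by_cases h1 : e i = true
    · left
      rw [if_pos h1, if_pos h1]
      push_cast
      ring
    · right
      rw [if_neg h1, if_neg h1]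
      push_cast
      ring
  · simp only [bh_v, ← he, hab]
    by_cases h1 : e i = true
    · right
      rw [if_pos h1, if_pos h1]
      push_cast
      ring
    · left
      rw [if_neg h1, if_neg h1]
      push_cast
      ring
  · simp only [bh_v, ha, hb]
    by_cases h1 : e i = true
    · have h2 : ¬ e' i = true := fun h2 => he (h1.trans h2.symm)
      right
      rw [if_pos h1, if_neg h2]
      linear_combination -hn
    · have h2 : e' i = true := by
        by_contra h2
        apply he
        revert h1 h2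
        cases e i <;> cases e' i <;> simp
      left
      rw [if_neg h1, if_pos h2]
      linear_combination -hn

theorem st_BH : ST_BH := by
  intro n
  obtain ⟨I, hI, hc, a, ha⟩ := bh_ex n
  classical
  have hO : Fintype.card (Option (I → Bool)) = 2 ^ (2 ^ n) + 1 := by
    rw [Fintype.card_option, Fintype.card_fun, Fintype.card_bool, hc]
  let f : Option (I → Bool) ≃ Fin (2 ^ (2 ^ n) + 1) := Fintype.equivFinOfCardEq hO
  let g : I ≃ Fin (2 ^ n) := Fintype.equivFinOfCardEq hc
  refine ⟨fun x j => bh_v n a (f.symm x) (g.symm j), ?_⟩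
  intro x y hxy
  have hne : f.symm x ≠ f.symm y := fun h => hxy (f.symm.injective h)
  have key : ∃ i, bh_v n a (f.symm x) i - bh_v n a (f.symm y) i = 1 ∨
      bh_v n a (f.symm y) i - bh_v n a (f.symm x) i = 1 := by
    revert hne
    cases f.symm x with
    | none =>
      cases f.symm y with
      | none => intro h; exact absurd rfl h
      | some e =>
        intro _
        obtain ⟨i, hi⟩ := bh_zero n a ha e
        exact ⟨i, hi.symm⟩
    | some e =>
      cases f.symm y with
      | none =>
        intro _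
        exact bh_zero n a ha e
      | some e' =>
        intro h
        exact bh_two n a ha e e' (fun h' => h (by rw [h']))
  obtain ⟨i, hi⟩ := key
  exact ⟨g i, by simpa using hi⟩

end Pool.Agent.Helper35.FO
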