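import Pool.Agent.Helper14.FO.Defs

/-! MP_190084_co: module KNB (pairs of sets without edges in circular cliques). -/

set_option autoImplicit false

namespace Pool.Agent.Helper35.FO

open Pool.Agent.Helper14.FO Finset

/-- `S + {0, …, k}` -/
def knb_A (p : ℕ) (S : Finset (ZMod p)) : ℕ → Finset (ZMod p)
  | 0 => S
  | k + 1 => knb_A p S k ∪ (knb_A p S k).image (fun x => x + 1)

theorem knb_sub (p : ℕ) (S : Finset (ZMod p)) (k : ℕ) : S ⊆ knb_A p S k := by
  induction k with
  | zero => exact Finset.Subset.refl _
  | succ k ih => exact ih.trans Finset.subset_union_left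

theorem knb_mem (p : ℕ) (S : Finset (ZMod p)) (k : ℕ) : ∀ x ∈ knb_A p S k,
    ∃ s ∈ S, ∃ j : ℕ, j ≤ k ∧ x = s + (j : ZMod p) := by
  induction k with
  | zero =>
    intro x hx
    exact ⟨x, hx, 0, le_rfl, by simp⟩
  | succ k ih =>
    intro x hx
    rcases Finset.mem_union.1 hx with h | h
    · obtain ⟨s, hs, j, hj, rfl⟩ := ih x h
      exact ⟨s, hs, j, by omega, rfl⟩
    · obtain ⟨y, hy, rfl⟩ := Finset.mem_image.1 h
      obtain ⟨s, hs, j, hj, rfl⟩ := ih y hy
      exact ⟨s, hs, j + 1, by omega, by push_cast; ring⟩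

theorem knb_univ (p : ℕ) [NeZero p] (A : Finset (ZMod p)) (hA : A.Nonempty)
    (h : ∀ x ∈ A, x + 1 ∈ A) : A = Finset.univ := by
  obtain ⟨x, hx⟩ := hA
  have h1 : ∀ n : ℕ, x + (n : ZMod p) ∈ A := by
    intro n
    induction n with
    | zero => simpa using hx
    | succ n ih =>
      have := h _ ih
      push_cast
      rwa [← add_assoc]
  apply Finset.eq_univ_of_forall
  intro y
  have h2 := h1 (y - x).val
  rw [ZMod.natCast_zmod_val] at h2
  simpa using h2

theorem knb_card (p : ℕ) [NeZero p] (S : Finset (ZMod p)) (hS : S.Nonempty) (k : ℕ) :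
    min p (S.card + k) ≤ (knb_A p S k).card := by
  induction k with
  | zero => exact min_le_right _ _
  | succ k ih =>
    have hmono : knb_A p S k ⊆ knb_A p S (k + 1) := Finset.subset_union_left
    by_cases h : ∀ x ∈ knb_A p S k, x + 1 ∈ knb_A p S k
    · have hu := knb_univ p _ (hS.mono (knb_sub p S k)) h
      have h1 := Finset.card_le_card hmono
      rw [hu, Finset.card_univ, ZMod.card] at h1
      exact (min_le_left _ _).trans h1
    · push Not at h
      obtain ⟨x, hx, hx1⟩ := h
      have h1 : insert (x + 1) (knb_A p S k) ⊆ knb_A p S (k + 1) := by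
        intro y hy
        rcases Finset.mem_insert.1 hy with rfl | hy
        · exact Finset.mem_union_right _ (Finset.mem_image_of_mem _ hx)
        · exact hmono hy
      have h2 := Finset.card_le_card h1
      rw [Finset.card_insert_of_notMem hx1] at h2
      omega

theorem st_KNB : ST_KNB := by
  intro p q _ hq h2 S T hS hT hN
  have hp : 0 < p := Nat.pos_of_ne_zero (NeZero.ne p)
  have hcard := knb_card p S hS (p - 2 * q)
  have hdis : Disjoint T ((knb_A p S (p - 2 * q)).image (fun x => x + (q : ZMod p))) := by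
    rw [Finset.disjoint_left]
    intro b hb hb2
    obtain ⟨x, hx, hxb⟩ := Finset.mem_image.1 hb2
    obtain ⟨s, hs, j, hj, rfl⟩ := knb_mem p S _ x hx
    apply hN s hs b hb
    have e1 : b - s = ((j + q : ℕ) : ZMod p) := by
      rw [← hxb]
      push_cast
      ring
    have v1 : (b - s).val = j + q := by
      rw [e1, ZMod.val_natCast_of_lt (by omega)]
    have e2 : s - b = ((p - (j + q) : ℕ) : ZMod p) := by
      have h3 : ((p - (j + q) : ℕ) : ZMod p) + ((j + q : ℕ) : ZMod p) = 0 := by
        rw [← Nat.cast_add, show p - (j + q) + (j + q) = p by omega, ZMod.natCast_self]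
      have h4 : s - b = -(b - s) := by ring
      rw [h4, e1]
      exact (eq_neg_of_add_eq_zero_left h3).symm
    have v2 : (s - b).val = p - (j + q) := by
      rw [e2, ZMod.val_natCast_of_lt (by omega)]
    refine ⟨?_, by omega, by omega⟩
    intro h
    rw [h, sub_self, ZMod.val_zero] at v1
    omega
  have hc2 : T.card + (knb_A p S (p - 2 * q)).card ≤ p := by
    have h3 := Finset.card_union_of_disjoint hdis
    rw [Finset.card_image_of_injective _ (add_left_injective _)] at h3
    have h4 := Finset.card_le_univ (T ∪ (knb_A p S (p - 2 * q)).image (fun x => x + (q : ZMod p)))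
    rw [ZMod.card] at h4
    omega
  have hT0 := hT.card_pos
  omega

end Pool.Agent.Helper35.FO
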