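import Mathlib
import Pool.Agent.Helper14.FO.Defs2
import Pool.Agent.Helper54.Lg.Farkas

/-! # FAR: fractional perfect matchings -/

set_option autoImplicit false

namespace Pool.Agent.Helper14.FO

open Finset

theorem far_ind (V : Type) [Fintype V] [DecidableEq V] (X : SimpleGraph V) (φ : V → ℝ)
    (hφ : ∀ x, 0 ≤ φ x) (hX : XP X φ 2) : ∀ (n : ℕ) (p : V → ℝ),
    (univ.filter (fun x => 0 < p x)).card ≤ n → (∀ x y, X.Adj x y → p x + p y ≤ 0) →
    ∑ x, φ x * p x ≤ 0 := by
  classical
  intro n
  induction n with
  | zero =>
    intro p hp _
    have h1 : univ.filter (fun x => 0 < p x) = ∅ := Finset.card_eq_zero.mp (Nat.le_zero.mp hp)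
    apply Finset.sum_nonpos
    intro x _
    have h2 : ¬ 0 < p x := by
      intro h
      have : x ∈ univ.filter (fun x => 0 < p x) := by simp [h]
      rw [h1] at this
      simp at this
    exact mul_nonpos_of_nonneg_of_nonpos (hφ x) (not_lt.mp h2)
  | succ n ih =>
    intro p hp hE
    by_cases hne : (univ.filter (fun x => 0 < p x)).Nonempty
    · obtain ⟨x0, hx0, hmin⟩ := Finset.exists_min_image _ p hne
      have ht : 0 < p x0 := by simpa using hx0
      set t := p x0 with htdef
      set I : Finset V := univ.filter (fun x => 0 < p x) with hI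
      have hmemI : ∀ x, x ∈ I ↔ 0 < p x := by intro x; simp [hI]
      have hInd : Ind X I := by
        intro a ha b hb hab
        have h1 := hE a b hab
        have h2 := (hmemI a).mp ha
        have h3 := (hmemI b).mp hb
        linarith
      set N1 : Finset V := univ.filter (fun x => ∃ a ∈ I, X.Adj a x) with hN1
      have hmemN : ∀ x, x ∈ N1 ↔ ∃ a ∈ I, X.Adj a x := by intro x; simp [hN1]
      have hle : ∀ x ∈ I, t ≤ p x := fun x hx => hmin x hx
      have hNle : ∀ x ∈ N1, p x ≤ -t := by
        intro x hx
        obtain ⟨a, ha, hax⟩ := (hmemN x).mp hx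
        have h1 := hE a x hax
        have h2 := hle a ha
        linarith
      have hdisj : Disjoint I N1 := by
        rw [Finset.disjoint_left]
        intro x hx hx'
        have h1 := hNle x hx'
        have h2 := (hmemI x).mp hx
        linarith
      have hxp := hX I hInd (I ∪ N1) (by intro x; rw [Finset.mem_union, hmemN])
      rw [Finset.sum_union hdisj] at hxp
      have hkey : ∑ x ∈ I, φ x ≤ ∑ x ∈ N1, φ x := by linarith
      set p' : V → ℝ := fun x => p x - (if x ∈ I then t else 0) + (if x ∈ N1 then t else 0)
        with hp'
      have hI1 : ∀ x ∈ I, p' x = p x - t := by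
        intro x hx
        have : x ∉ N1 := Finset.disjoint_left.mp hdisj hx
        simp [hp', hx, this]
      have hN1' : ∀ x ∈ N1, p' x = p x + t := by
        intro x hx
        have : x ∉ I := fun h => Finset.disjoint_left.mp hdisj h hx
        simp [hp', hx, this]
      have hO : ∀ x, x ∉ I → x ∉ N1 → p' x = p x := by
        intro x h1 h2
        simp [hp', h1, h2]
      have hnI : ∀ x, x ∉ I → p x ≤ 0 := fun x hx => not_lt.mp (fun h => hx ((hmemI x).mpr h))
      have hE' : ∀ x y, X.Adj x y → p' x + p' y ≤ 0 := by
        intro x y hxy
        by_cases hx : x ∈ I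
        · have hy : y ∈ N1 := (hmemN y).mpr ⟨x, hx, hxy⟩
          rw [hI1 x hx, hN1' y hy]
          have := hE x y hxy
          linarith
        · by_cases hy : y ∈ I
          · have hx' : x ∈ N1 := (hmemN x).mpr ⟨y, hy, hxy.symm⟩
            rw [hI1 y hy, hN1' x hx']
            have := hE x y hxy
            linarith
          · have h3 : p' x ≤ 0 := by
              by_cases hx' : x ∈ N1
              · rw [hN1' x hx']
                have := hNle x hx'
                linarith
              · rw [hO x hx hx']
                exact hnI x hx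
            have h4 : p' y ≤ 0 := by
              by_cases hy' : y ∈ N1
              · rw [hN1' y hy']
                have := hNle y hy'
                linarith
              · rw [hO y hy hy']
                exact hnI y hy
            linarith
      have hcard : (univ.filter (fun x => 0 < p' x)).card ≤ n := by
        have hsub : univ.filter (fun x => 0 < p' x) ⊂ I := by
          rw [Finset.ssubset_iff_of_subset]
          · refine ⟨x0, hx0, ?_⟩
            have h5 : p' x0 = 0 := by
              rw [hI1 x0 hx0]
              simp [htdef]
            simp [h5]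
          · intro x hx
            have h6 : 0 < p' x := by simpa using hx
            by_contra hcon
            by_cases hx' : x ∈ N1
            · rw [hN1' x hx'] at h6
              have := hNle x hx'
              linarith
            · rw [hO x hcon hx'] at h6
              exact hcon ((hmemI x).mpr h6)
        have h7 := Finset.card_lt_card hsub
        omega
      have hfin := ih p' hcard hE'
      have hsum : ∑ x, φ x * p' x = ∑ x, φ x * p x - t * ∑ x ∈ I, φ x + t * ∑ x ∈ N1, φ x := by
        have h8 : ∀ x, φ x * p' x = φ x * p x - (if x ∈ I then t * φ x else 0) +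
            (if x ∈ N1 then t * φ x else 0) := by
          intro x
          simp only [hp']
          split_ifs <;> ring
        rw [Finset.sum_congr rfl (fun x _ => h8 x), Finset.sum_add_distrib, Finset.sum_sub_distrib,
          Finset.mul_sum, Finset.mul_sum]
        simp [Finset.sum_ite_mem]
      have h9 : t * ∑ x ∈ I, φ x ≤ t * ∑ x ∈ N1, φ x := mul_le_mul_of_nonneg_left hkey ht.le
      linarith
    · apply ih p _ hE
      rw [Finset.not_nonempty_iff_eq_empty.mp hne]
      simp

theorem st_FAR : ST_FAR := by
  classical
  intro V _ _ X φ hφ hX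
  let e := Fintype.equivFin V
  let g : ({p : V × V // X.Adj p.1 p.2} ⊕ Unit) → Fin (Fintype.card V) → ℝ := fun i a =>
    match i with
    | Sum.inl p => (if e.symm a = p.1.1 then 1 else 0) + (if e.symm a = p.1.2 then 1 else 0)
    | Sum.inr _ => - φ (e.symm a)
  let c : ({p : V × V // X.Adj p.1 p.2} ⊕ Unit) → ℝ := fun i =>
    match i with
    | Sum.inl _ => 0
    | Sum.inr _ => 1
  rcases Pool.Agent.Helper54.Lg.farkas_real (Fintype.card V) _ g c with ⟨y, hy⟩ | ⟨l, h0, h1, h2⟩
  · exfalso
    let p : V → ℝ := fun x => y (e x)
    have hS : ∀ F : V → ℝ, ∑ a, F (e.symm a) * y a = ∑ x, F x * p x := by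
      intro F
      rw [← Equiv.sum_comp e]
      simp [p]
    have hedge : ∀ u v, X.Adj u v → p u + p v ≤ 0 := by
      intro u v huv
      have h3 := hy (Sum.inl ⟨(u, v), huv⟩)
      have h4 : ∑ a, g (Sum.inl ⟨(u, v), huv⟩) a * y a = p u + p v := by
        have h5 := hS (fun x => (if x = u then 1 else 0) + (if x = v then 1 else 0))
        simp only [g]
        rw [h5]
        simp [add_mul, Finset.sum_add_distrib]
      simp only [c] at h3
      rw [h4] at h3
      linarith
    have hun := hy (Sum.inr ())
    have h6 : ∑ a, g (Sum.inr ()) a * y a = - ∑ x, φ x * p x := by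
      have h5 := hS (fun x => - φ x)
      simp only [g]
      rw [h5]
      simp
    simp only [c] at hun
    rw [h6] at hun
    have h7 := far_ind V X φ hφ hX _ p le_rfl hedge
    linarith
  · set s := l (Sum.inr ()) with hs
    have hspos : 0 < s := by
      have : ∑ i, l i * c i = s := by
        simp [Fintype.sum_sum_type, c, hs]
      rw [this] at h2
      exact h2
    let L : V → V → ℝ := fun x y => if h : X.Adj x y then l (Sum.inl ⟨(x, y), h⟩) else 0
    have hL0 : ∀ x y, 0 ≤ L x y := by
      intro x y
      simp only [L]
      split_ifs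
      · exact h0 _
      · exact le_rfl
    have hLsum : ∀ F : V × V → ℝ, ∑ p : {p : V × V // X.Adj p.1 p.2}, l (Sum.inl p) * F p.1 =
        ∑ x, ∑ y, L x y * F (x, y) := by
      intro F
      have h3 := Pool.Agent.Helper54.Lg.sum_dite_sub (fun p : V × V => X.Adj p.1 p.2)
        (fun p => l (Sum.inl p)) F
      rw [← h3, Fintype.sum_prod_type]
    refine ⟨fun x y => (L x y + L y x) / s,
      fun x y => by change (L x y + L y x) / s = (L y x + L x y) / s; rw [add_comm], fun x y =>
      div_nonneg (add_nonneg (hL0 _ _) (hL0 _ _)) hspos.le, ?_, ?_⟩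
    · intro x y hxy
      have h3 : L x y = 0 := by simp [L, hxy]
      have h4 : L y x = 0 := by
        have : ¬ X.Adj y x := fun h => hxy h.symm
        simp [L, this]
      simp [h3, h4]
    · intro x
      have h3 := h1 (e x)
      rw [Fintype.sum_sum_type] at h3
      simp only [g, Equiv.symm_apply_apply, Finset.univ_unique, Finset.sum_singleton,
        PUnit.default_eq_unit] at h3
      have h4 := hLsum (fun p => (if x = p.1 then 1 else 0) + (if x = p.2 then 1 else 0))
      rw [h4] at h3
      have h5 : ∑ u, ∑ v, L u v * ((if x = u then 1 else 0) + (if x = v then 1 else 0)) =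
          ∑ y, L x y + ∑ y, L y x := by
        simp only [mul_add, Finset.sum_add_distrib]
        congr 1
        · simp
        · simp
      simp only at h3
      rw [h5] at h3
      rw [← Finset.sum_div, Finset.sum_add_distrib, div_eq_iff hspos.ne']
      have h6 : l (Sum.inr ()) = s := rfl
      rw [h6] at h3
      linarith

end Pool.Agent.Helper14.FO
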